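import Pool.Agent.Helper25.FS.TwoB
import Pool.Agent.Helper10.FS.Two
import Pool.Agent.Helper38.FS.Goals
import Pool.Agent.Helper60.AK.LZ

/-!
# Project FS (MP_75608d_al), middle levels: TWO

From TRACE (helper10) and DRIFT (helper96): one of the two systems `(z, y)`, `(z, τ y)` has an
exponentially small average return probability on injective `r`-tuples at time `r`.
-/

set_option autoImplicit false

namespace Pool.Agent.Helper25.FS

open Finset Equiv Filter
open Pool.Agent.Helper96.FS (Sampler pre dif drift)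
open Pool.Agent.Helper3.AK (Alt lazyLaw)
open Pool.Agent.Helper38.FS (rp MM SP Win jj S_TWO)
open Pool.Agent.Helper10.FS (eps pf trace_two)

theorem two : S_TWO := by
  intro K hK
  set θ : ℝ := 1 / 10 ^ 7 with hθ
  set η : ℝ := θ / (400 * (K + 1)) with hη
  have hK0 : (0 : ℝ) ≤ K := Nat.cast_nonneg _
  have hK1 : (0 : ℝ) < (K : ℝ) + 1 := by linarith
  have hθ0 : 0 < θ := by rw [hθ]; norm_num
  have hη0 : 0 < η := by rw [hη]; positivity
  have hηle : η ≤ 1 / 10 ^ 9 := by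
    rw [hη, hθ, div_le_iff₀ (by positivity)]
    have : (1 : ℝ) / 10 ^ 9 * (400 * (K + 1)) = 4 / 10 ^ 7 * (K + 1) := by ring
    rw [this]
    linarith
  set s1 : ℝ := Real.sqrt (8 * (K + 1) * η) with hs1
  set s2 : ℝ := Real.sqrt (4 * η / θ) with hs2
  have hs1' : s1 ≤ 1 / 10 := by
    rw [hs1]
    refine Real.sqrt_le_iff.2 ⟨by norm_num, ?_⟩
    have : 8 * ((K : ℝ) + 1) * η = 8 * θ / 400 := by
      rw [hη]; field_simp
    rw [this, hθ]
    norm_num
  have hs2' : s2 ≤ 1 / 10 := by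
    rw [hs2]
    refine Real.sqrt_le_iff.2 ⟨by norm_num, ?_⟩
    have : 4 * η / θ = 1 / (100 * (K + 1)) := by
      rw [hη]; field_simp; norm_num
    rw [this, div_le_iff₀ (by positivity)]
    have : ((1 : ℝ) / 10) ^ 2 * (100 * (K + 1)) = K + 1 := by ring
    rw [this]
    linarith
  set η' : ℝ := s1 + 2 * s2 with hη'
  have hη'2 : η' ≤ 1 / 2 := by rw [hη']; linarith
  have hnum := two_num (θ := θ) (η := η) (η' := η') (ε0 := η / 2) hθ hη0 hη'2 rfl
    (by linarith)
  have hlog : ∀ᶠ n : ℕ in atTop, (1 : ℝ) ≤ Real.log n :=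
    (Real.tendsto_log_atTop.comp tendsto_natCast_atTop_atTop).eventually_ge_atTop _
  have hlog2 : ∀ᶠ n : ℕ in atTop, Real.log n ≤ (n : ℝ) ^ (0.005 : ℝ) := by
    have h := (isLittleO_log_rpow_atTop (by norm_num : (0 : ℝ) < 0.005)).bound
      (by norm_num : (0 : ℝ) < 1)
    have h2 := tendsto_natCast_atTop_atTop (R := ℝ) |>.eventually h
    filter_upwards [h2, hlog] with n hn hl
    rw [Real.norm_of_nonneg (by linarith), one_mul, Real.norm_of_nonneg (by positivity)] at hn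
    exact hn
  have hpow : ∀ᶠ n : ℕ in atTop, (16 : ℝ) ≤ (n : ℝ) ^ (0.005 : ℝ) :=
    ((tendsto_rpow_atTop (by norm_num : (0 : ℝ) < 0.005)).comp
      tendsto_natCast_atTop_atTop).eventually_ge_atTop _
  obtain ⟨n₀, hn₀⟩ := eventually_atTop.1 (hnum.and (hlog.and (hlog2.and hpow)))
  refine ⟨η / 2, by linarith, n₀ + 2, fun n hn r hW z y τ hcard hS1 hS2 => ?_⟩
  obtain ⟨hN, hl, hl2, hp⟩ := hn₀ n (by omega)
  obtain ⟨hr1, hw1, hw2⟩ := hW
  have hn2 : 2 ≤ n := by omega
  have hnp : (0 : ℝ) < n := by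
    have : 0 < n := by omega
    exact_mod_cast this
  have hn1 : (1 : ℝ) ≤ n := by
    have : 1 ≤ n := by omega
    exact_mod_cast this
  have hrp : (0 : ℝ) < r := by
    have : 0 < r := hr1
    exact_mod_cast this
  have hlp : (0 : ℝ) < Real.log n := by linarith
  have hrn : r ≤ n := by
    have h1 : (1 : ℝ) ≤ n / r := by linarith
    rw [le_div_iff₀ hrp] at h1
    have h2 : (r : ℝ) ≤ n := by linarith
    exact_mod_cast h2
  have hrn' : (r : ℝ) ≤ n := by exact_mod_cast hrn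
  set M : ℕ := MM n r with hM
  have hMge : 8 * ((n : ℝ) / r * Real.log n) ≤ M := by
    rw [hM]
    unfold MM
    push_cast
    have := Nat.le_ceil ((n : ℝ) / r * Real.log n)
    linarith
  have hMle : (M : ℝ) ≤ 8 * ((n : ℝ) / r * Real.log n) + 8 := by
    rw [hM]
    unfold MM
    push_cast
    have := Nat.ceil_lt_add_one (show 0 ≤ (n : ℝ) / r * Real.log n by positivity)
    linarith
  have hnr : (n : ℝ) / r * Real.log n * r = n * Real.log n := by field_simp
  have hMr1 : 2 * (n : ℝ) * Real.log n ≤ M * r := by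
    have h1 := mul_le_mul_of_nonneg_right hMge hrp.le
    have h2 : 8 * ((n : ℝ) / r * Real.log n) * r = 8 * (n * Real.log n) := by
      rw [← hnr]; ring
    rw [h2] at h1
    have h3 : 0 < (n : ℝ) * Real.log n := by positivity
    linarith
  have hMr2 : (M : ℝ) * r ≤ 16 * n * Real.log n := by
    have h1 := mul_le_mul_of_nonneg_right hMle hrp.le
    have h2 : (8 * ((n : ℝ) / r * Real.log n) + 8) * r = 8 * (n * Real.log n) + 8 * r := by
      rw [← hnr]; ring
    rw [h2] at h1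
    have h3 : (n : ℝ) * 1 ≤ n * Real.log n := mul_le_mul_of_nonneg_left hl hnp.le
    linarith
  have hM10 : (M : ℝ) ≤ (n : ℝ) ^ (1 / 10 : ℝ) := by
    have h1 : (n : ℝ) / r * Real.log n ≤ (n : ℝ) ^ (0.09 : ℝ) * (n : ℝ) ^ (0.005 : ℝ) :=
      mul_le_mul hw2 hl2 hlp.le (by positivity)
    have h2 : (1 : ℝ) ≤ (n : ℝ) ^ (0.09 : ℝ) * (n : ℝ) ^ (0.005 : ℝ) := by
      have h3 : (1 : ℝ) ≤ (n : ℝ) / r * Real.log n := by
        have h4 : (1 : ℝ) ≤ n / r := by linarith
        nlinarith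
      linarith
    have h3 : (n : ℝ) ^ (1 / 10 : ℝ) = (n : ℝ) ^ (0.09 : ℝ) * (n : ℝ) ^ (0.005 : ℝ) *
        (n : ℝ) ^ (0.005 : ℝ) := by
      rw [← Real.rpow_add hnp, ← Real.rpow_add hnp]
      norm_num
    rw [h3]
    have h5 : (n : ℝ) ^ (0.09 : ℝ) * (n : ℝ) ^ (0.005 : ℝ) * 16 ≤
        (n : ℝ) ^ (0.09 : ℝ) * (n : ℝ) ^ (0.005 : ℝ) * (n : ℝ) ^ (0.005 : ℝ) :=
      mul_le_mul_of_nonneg_left hp (by linarith)
    linarith
  have hj : 2 * ((⌈100 * Real.log n⌉₊ : ℕ) : ℝ) ≤ 400 * Real.log n := by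
    have := Nat.ceil_lt_add_one (show 0 ≤ 100 * Real.log n by positivity)
    linarith
  set N : ℕ := n / (102400 * M) with hNdef
  have key := hN r M ⌈100 * Real.log n⌉₊ N
    (rp (Fin.snoc (α := fun _ => Alt n) z y) r r)
    (rp (Fin.snoc (α := fun _ => Alt n) z (τ * y)) r r)
    (∑ g : Fin (2 * N) → Perm (Fin n), (∏ i, lazyLaw z (2 * ⌈100 * Real.log n⌉₊) (g i)) *
        (pf r (pre eps (y : Perm (Fin n)) (2 * N) g) *
          pf r (pre eps ((τ * y : Alt n) : Perm (Fin n)) (2 * N) g)))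
    hrn hMr1 hMr2 hM10 hj rfl
  refine key ?_ ?_
  · intro R0 R1
    have h := trace_two n r K r N ⌈100 * Real.log n⌉₊ hK hrn z y (τ * y) θ η hθ0
      (by rw [hθ]; norm_num) hη0.le (by linarith [show (1 : ℝ) / 10 ^ 9 ≤ 1 by norm_num])
      (by rw [← hs1, ← hs2]; linarith) R0 R1
    have h2 : 1 - Real.sqrt (8 * (K + 1) * η) - 2 * Real.sqrt (4 * η / θ) = 1 - η' := by
      rw [← hs1, ← hs2, hη']; ring
    rw [h2] at h
    exact h
  · have hx : (0 : ℝ) < (n : ℝ) ^ (-(1 / 10 : ℝ)) := Real.rpow_pos_of_pos hnp _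
    have hx1 : (n : ℝ) ^ (-(1 / 10 : ℝ)) ≤ 1 :=
      Real.rpow_le_one_of_one_le_of_nonpos hn1 (by norm_num)
    have hS1' : Sampler (lazyLaw z (2 * ⌈100 * Real.log n⌉₊)) (τ : Perm (Fin n)).support
        (n / 51200) ((n : ℝ) ^ (-(1 / 10 : ℝ))) := by
      have h := hS1
      unfold SP jj at h
      norm_num at h ⊢
      exact h
    have hS2' : Sampler (lazyLaw z (2 * ⌈100 * Real.log n⌉₊))
        ((τ : Perm (Fin n)).support.image ((y : Perm (Fin n))⁻¹ : Perm (Fin n)))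
        (n / 51200) ((n : ℝ) ^ (-(1 / 10 : ℝ))) := by
      have h := hS2
      unfold SP jj at h
      norm_num at h ⊢
      exact h
    have hA : 2 * N * (τ : Perm (Fin n)).support.card ≤ n / 51200 := by
      rw [hcard, hNdef]
      rw [Nat.le_div_iff_mul_le (by norm_num)]
      calc 2 * (n / (102400 * M)) * M * 51200 = n / (102400 * M) * (102400 * M) := by ring
        _ ≤ n := Nat.div_mul_le_self _ _
    have h := pair_sum (μ := lazyLaw z (2 * ⌈100 * Real.log n⌉₊))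
      (Pool.Agent.Helper60.AK.LZ.lazy_nonneg z _)
      (Pool.Agent.Helper60.AK.LZ.lazy_sum z _ hK) eps (y : Perm (Fin n)) (τ : Perm (Fin n))
      hx hx1 hS1' hS2' (2 * N) r hA
    rw [hcard] at h
    exact h

end Pool.Agent.Helper25.FS
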