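import Pool.Agent.Helper38.FS.Defs

/-!
# Project FS (MP_75608d_al), middle levels: the step TWO, part A

The average over the words `g` of the product of the two return probabilities is small, if the
law of the letters has the sampler property (from DRIFT of helper96).
-/

set_option autoImplicit false

namespace Pool.Agent.Helper25.FS

open Finset Equiv
open Pool.Agent.Helper96.FS (Sampler pre dif drift)
open Pool.Agent.Helper3.AK (Alt lazyLaw)

variable {n : ℕ}

/-- probability that a permutation fixes a uniform injective `r`-tuple -/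
noncomputable def rf (r : ℕ) (w : Perm (Fin n)) : ℝ :=
  ((univ.filter fun x => w x = x).card.descFactorial r : ℝ) / (n.descFactorial r : ℝ)

lemma rf_nonneg (r : ℕ) (w : Perm (Fin n)) : 0 ≤ rf r w := by
  unfold rf; positivity

lemma card_fix (w : Perm (Fin n)) : (univ.filter fun x => w x = x).card + w.support.card = n := by
  have h := Finset.card_filter_add_card_filter_not (s := (univ : Finset (Fin n)))
    (fun x => w x = x)
  rw [Finset.card_univ, Fintype.card_fin] at h
  have h2 : w.support = univ.filter (fun x => ¬ w x = x) := by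
    ext x; simp [Perm.mem_support]
  rw [h2]
  exact h

lemma desc_le {F n : ℕ} (h : F ≤ n) : ∀ r : ℕ, F.descFactorial r * n ^ r ≤ F ^ r * n.descFactorial r
  | 0 => by simp
  | r + 1 => by
    have ih := desc_le h r
    rw [Nat.descFactorial_succ, Nat.descFactorial_succ, pow_succ, pow_succ]
    have h1 : (F - r) * n ≤ F * (n - r) := by
      rw [Nat.sub_mul, Nat.mul_sub]
      have : F * r ≤ r * n := by
        rw [mul_comm F r]; exact Nat.mul_le_mul_left _ h
      omega
    calc (F - r) * F.descFactorial r * (n ^ r * n)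
        = ((F - r) * n) * (F.descFactorial r * n ^ r) := by ring
      _ ≤ (F * (n - r)) * (F ^ r * n.descFactorial r) := Nat.mul_le_mul h1 ih
      _ = F ^ r * F * ((n - r) * n.descFactorial r) := by ring

lemma rf_le_exp (r : ℕ) (w : Perm (Fin n)) :
    rf r w ≤ Real.exp (-((r : ℝ) * w.support.card / n)) := by
  set F := (univ.filter fun x => w x = x).card with hF
  have hc := card_fix w
  rw [← hF] at hc
  by_cases hn : n.descFactorial r = 0
  · unfold rf
    rw [hn]
    simp only [Nat.cast_zero, div_zero]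
    exact (Real.exp_pos _).le
  have hn0 : 0 < n.descFactorial r := Nat.pos_of_ne_zero hn
  by_cases hnn : n = 0
  · subst hnn
    have hr : r = 0 := by
      by_contra h
      apply hn
      exact Nat.descFactorial_eq_zero_iff_lt.2 (Nat.pos_of_ne_zero h)
    subst hr
    simp [rf]
  have hnp : (0 : ℝ) < n := by exact_mod_cast Nat.pos_of_ne_zero hnn
  have h1 := desc_le (F := F) (n := n) (by omega) r
  have h2 : rf r w ≤ ((F : ℝ) / n) ^ r := by
    unfold rf
    rw [← hF, div_pow, div_le_div_iff₀ (by exact_mod_cast hn0) (pow_pos hnp _)]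
    exact_mod_cast h1
  have h3 : (F : ℝ) / n ≤ Real.exp (-((w.support.card : ℝ) / n)) := by
    have h4 : (F : ℝ) = n - w.support.card := by
      have : (F : ℝ) + w.support.card = n := by exact_mod_cast hc
      linarith
    rw [h4, sub_div, div_self hnp.ne']
    have := Real.add_one_le_exp (-((w.support.card : ℝ) / n))
    linarith
  refine h2.trans ((pow_le_pow_left₀ (by positivity) h3 r).trans (le_of_eq ?_))
  rw [← Real.exp_nat_mul]
  congr 1
  ring

lemma rf_le_one (r : ℕ) (w : Perm (Fin n)) : rf r w ≤ 1 := by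
  refine (rf_le_exp r w).trans (Real.exp_le_one_iff.2 ?_)
  have : (0 : ℝ) ≤ (r : ℝ) * w.support.card / n := by positivity
  linarith

lemma rf_mul_le (r : ℕ) (u v : Perm (Fin n)) :
    rf r u * rf r v ≤ Real.exp (-((r : ℝ) * (u⁻¹ * v).support.card / n)) := by
  refine (mul_le_mul (rf_le_exp r u) (rf_le_exp r v) (rf_nonneg _ _)
    (Real.exp_pos _).le).trans ?_
  rw [← Real.exp_add]
  refine Real.exp_le_exp.2 ?_
  have h1 := Finset.card_le_card (Perm.support_mul_le u⁻¹ v)
  have h2 := Finset.card_union_le (u⁻¹).support v.support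
  rw [Perm.support_inv] at h2
  have h3 : ((u⁻¹ * v).support.card : ℝ) ≤ u.support.card + v.support.card := by
    have h4 : (u⁻¹ * v).support.card ≤ (u⁻¹).support.card + v.support.card :=
      h1.trans (Finset.card_union_le _ _)
    rw [Perm.support_inv] at h4
    exact_mod_cast h4
  by_cases hn : (n : ℝ) = 0
  · rw [hn]; simp
  have hnp : (0 : ℝ) < n := lt_of_le_of_ne (Nat.cast_nonneg _) (Ne.symm hn)
  have h5 : (r : ℝ) * (u⁻¹ * v).support.card / n ≤
      (r : ℝ) * u.support.card / n + (r : ℝ) * v.support.card / n := by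
    rw [← add_div, ← mul_add]
    exact div_le_div_of_nonneg_right (mul_le_mul_of_nonneg_left h3 (Nat.cast_nonneg _)) hnp.le
  linarith

/-- average of the product of the return probabilities of the two systems -/
theorem pair_sum {μ : Perm (Fin n) → ℝ} (hμ : ∀ g, 0 ≤ μ g) (hμ1 : ∑ g, μ g = 1)
    (ε : ℕ → Bool) (y₀ τ : Perm (Fin n)) {A : ℕ} {x : ℝ} (hx : 0 < x) (hx1 : x ≤ 1)
    (h1 : Sampler μ τ.support A x) (h2 : Sampler μ (τ.support.image (y₀⁻¹ : Perm (Fin n))) A x)
    (N r : ℕ) (hA : N * τ.support.card ≤ A) :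
    ∑ g : Fin N → Perm (Fin n), (∏ j, μ (g j)) *
      (rf r (pre ε y₀ N g) * rf r (pre ε (τ * y₀) N g)) ≤
      2 ^ N * x ^ ((N : ℝ) / 5) + Real.exp (-((r : ℝ) * (N * τ.support.card / 2) / n)) := by
  have key := drift hμ hμ1 ε y₀ τ hx hx1 h1 h2 N hA
  set E : ℝ := Real.exp (-((r : ℝ) * (N * τ.support.card / 2) / n)) with hE
  have h3 : ∀ g : Fin N → Perm (Fin n), (∏ j, μ (g j)) *
      (rf r (pre ε y₀ N g) * rf r (pre ε (τ * y₀) N g)) ≤
      (∏ j, μ (g j)) *
      (if 2 * (dif ε y₀ (τ * y₀) N g).support.card < N * τ.support.card then 1 else 0) +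
      (∏ j, μ (g j)) * E := by
    intro g
    have hp : 0 ≤ ∏ j, μ (g j) := Finset.prod_nonneg fun j _ => hμ _
    rw [← mul_add]
    refine mul_le_mul_of_nonneg_left ?_ hp
    split_ifs with hc
    · have h4 : rf r (pre ε y₀ N g) * rf r (pre ε (τ * y₀) N g) ≤ 1 * 1 :=
        mul_le_mul (rf_le_one _ _) (rf_le_one _ _) (rf_nonneg _ _) zero_le_one
      have h5 : 0 < E := Real.exp_pos _
      linarith
    · rw [zero_add]
      refine (rf_mul_le r _ _).trans (Real.exp_le_exp.2 (neg_le_neg ?_))
      have h6 : (N * τ.support.card : ℝ) / 2 ≤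
          (((pre ε y₀ N g)⁻¹ * pre ε (τ * y₀) N g).support.card : ℝ) := by
        have h7 : N * τ.support.card ≤ 2 * (dif ε y₀ (τ * y₀) N g).support.card := not_lt.1 hc
        have h8 : ((N * τ.support.card : ℕ) : ℝ) ≤
            ((2 * (dif ε y₀ (τ * y₀) N g).support.card : ℕ) : ℝ) := by exact_mod_cast h7
        push_cast at h8
        unfold dif at h8
        linarith
      exact div_le_div_of_nonneg_right (mul_le_mul_of_nonneg_left h6 (Nat.cast_nonneg _))
        (Nat.cast_nonneg _)
  refine (Finset.sum_le_sum fun g _ => h3 g).trans ?_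
  rw [Finset.sum_add_distrib, ← Finset.sum_mul]
  have h4 : ∑ g : Fin N → Perm (Fin n), ∏ j, μ (g j) = 1 := by
    have h5 := Finset.prod_univ_sum (ι := Fin N) (κ := fun _ => Perm (Fin n))
      (fun _ => (Finset.univ : Finset (Perm (Fin n)))) (fun _ g => μ g)
    rw [Fintype.piFinset_univ] at h5
    rw [← h5]
    simp [hμ1]
  rw [h4, one_mul]
  linarith

end Pool.Agent.Helper25.FS
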