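import Pool.Agent.Helper25.FS.TwoA

/-!
# Project FS (MP_75608d_al), middle levels: the step TWO, part B (numbers)
-/

set_option autoImplicit false

namespace Pool.Agent.Helper25.FS

open Finset Equiv Filter

/-- the numbers of the step TWO -/
theorem two_num {θ η η' ε0 : ℝ} (hθ : θ = 1 / 10 ^ 7) (hη0 : 0 < η)
    (hη' : η' ≤ 1 / 2) (hε : ε0 = η / 2)
    (hε9 : ε0 ≤ 1 / 10 ^ 9) :
    ∀ᶠ n : ℕ in atTop, ∀ r M j N : ℕ, ∀ R0 R1 S : ℝ, r ≤ n →
      2 * (n : ℝ) * Real.log n ≤ M * r → (M : ℝ) * r ≤ 16 * n * Real.log n →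
      (M : ℝ) ≤ (n : ℝ) ^ (1 / 10 : ℝ) → 2 * (j : ℝ) ≤ 400 * Real.log n →
      N = n / (102400 * M) →
      ((1 - η) ^ r ≤ R0 → (1 - η) ^ r ≤ R1 →
        (R0 - (1 - η) ^ r) * (R1 - (1 - η) ^ r) * (1 - θ) ^ (4 * j * N) *
          (1 - η') ^ (2 * N) ≤ S) →
      S ≤ 2 ^ (2 * N) * ((n : ℝ) ^ (-(1 / 10 : ℝ))) ^ (((2 * N : ℕ) : ℝ) / 5) +
        Real.exp (-((r : ℝ) * (((2 * N : ℕ) : ℝ) * M / 2) / n)) →
      R0 ≤ Real.exp (-(ε0 * r)) ∨ R1 ≤ Real.exp (-(ε0 * r)) := by
  have hε0 : 0 < ε0 := by rw [hε]; linarith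
  have hlog : ∀ᶠ n : ℕ in atTop, (10 : ℝ) ^ 4 ≤ Real.log n :=
    (Real.tendsto_log_atTop.comp tendsto_natCast_atTop_atTop).eventually_ge_atTop _
  have hX : ∀ᶠ n : ℕ in atTop, (10 : ℝ) ^ 10 + 1 / ε0 ≤ (n : ℝ) ^ (9 / 10 : ℝ) :=
    ((tendsto_rpow_atTop (by norm_num : (0 : ℝ) < 9 / 10)).comp
      tendsto_natCast_atTop_atTop).eventually_ge_atTop _
  filter_upwards [hlog, hX, eventually_ge_atTop 2] with n hl hx hn2
  intro r M j N R0 R1 S hrn hM1 hM2 hM3 hj hN hT hS
  have hn : (0 : ℝ) < n := by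
    have : 0 < n := by omega
    exact_mod_cast this
  have hlp : (0 : ℝ) < Real.log n := lt_of_lt_of_le (by norm_num) hl
  -- M is positive and r is large
  have hMr : (0 : ℝ) < M * r := lt_of_lt_of_le (by positivity) hM1
  have hMp : (0 : ℝ) < M := by
    rcases Nat.eq_zero_or_pos M with h | h
    · rw [h] at hMr; simp at hMr
    · exact_mod_cast h
  have hrp : (0 : ℝ) < r := by
    rcases Nat.eq_zero_or_pos r with h | h
    · rw [h] at hMr; simp at hMr
    · exact_mod_cast h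
  have hsplit : (n : ℝ) = (n : ℝ) ^ (9 / 10 : ℝ) * (n : ℝ) ^ (1 / 10 : ℝ) := by
    rw [← Real.rpow_add hn]; norm_num
  have hX0 : (0 : ℝ) < (n : ℝ) ^ (9 / 10 : ℝ) := Real.rpow_pos_of_pos hn _
  have hnM : (n : ℝ) ^ (9 / 10 : ℝ) * M ≤ n := by
    calc (n : ℝ) ^ (9 / 10 : ℝ) * M ≤ (n : ℝ) ^ (9 / 10 : ℝ) * (n : ℝ) ^ (1 / 10 : ℝ) :=
          mul_le_mul_of_nonneg_left hM3 hX0.le
      _ = n := hsplit.symm
  have hr : (n : ℝ) ^ (9 / 10 : ℝ) ≤ r := by
    have h1 : (n : ℝ) ^ (9 / 10 : ℝ) * M ≤ r * M := by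
      calc (n : ℝ) ^ (9 / 10 : ℝ) * M ≤ n := hnM
        _ ≤ 2 * n * Real.log n := by nlinarith
        _ ≤ M * r := hM1
        _ = r * M := mul_comm _ _
    exact le_of_mul_le_mul_right h1 hMp
  have hr10 : (10 : ℝ) ^ 10 + 1 / ε0 ≤ r := hx.trans hr
  have hinv : 0 < 1 / ε0 := by positivity
  have hεr : 1 ≤ ε0 * r := by
    have h1 : 1 / ε0 ≤ r := by linarith [show (0 : ℝ) < 10 ^ 10 by norm_num]
    have h2 := mul_le_mul_of_nonneg_left h1 hε0.le
    rwa [mul_one_div_cancel hε0.ne'] at h2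
  have hr2 : (10 : ℝ) ^ 10 ≤ r := by linarith
  -- the real number `a`
  set a : ℝ := n / (102400 * M) with ha
  have haM : a * M = n / 102400 := by rw [ha]; field_simp
  have ha10 : 10 ≤ a := by
    rw [ha, le_div_iff₀ (by positivity)]
    have h1 : (10 : ℝ) ^ 10 * M ≤ n := by
      refine (mul_le_mul_of_nonneg_right ?_ hMp.le).trans hnM
      linarith
    nlinarith
  have hNa : (N : ℝ) ≤ a := by
    rw [hN, ha]
    have := @Nat.cast_div_le ℝ _ _ _ n (102400 * M)
    push_cast at this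
    exact this
  have hNa2 : a - 1 < N := by
    have h1 : n < (N + 1) * (102400 * M) := by
      rw [hN, mul_comm]
      have hp : 0 < 102400 * M := by
        have : 0 < M := by exact_mod_cast hMp
        omega
      exact Nat.lt_mul_div_succ n hp
    have h2 : (n : ℝ) < (N + 1) * (102400 * M) := by exact_mod_cast h1
    have h3 : a < N + 1 := by
      rw [ha, div_lt_iff₀ (by positivity)]
      exact h2
    linarith
  have hNa3 : 9 / 10 * a ≤ N := by linarith
  -- relation between `a log n` and `r`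
  have hal1 : a * Real.log n ≤ r / 204800 := by
    have h1 : a * Real.log n * M = n * Real.log n / 102400 := by
      calc a * Real.log n * M = a * M * Real.log n := by ring
        _ = _ := by rw [haM]; ring
    have h2 : a * Real.log n * M ≤ r / 204800 * M := by
      rw [h1]
      linarith
    exact le_of_mul_le_mul_right h2 hMp
  have hal2 : r / 1638400 ≤ a * Real.log n := by
    have h1 : a * Real.log n * M = n * Real.log n / 102400 := by
      calc a * Real.log n * M = a * M * Real.log n := by ring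
        _ = _ := by rw [haM]; ring
    have h2 : r / 1638400 * M ≤ a * Real.log n * M := by
      rw [h1]
      linarith
    exact le_of_mul_le_mul_right h2 hMp
  have ha0 : 0 < a := by linarith
  have hNn : (0 : ℝ) ≤ N := Nat.cast_nonneg _
  -- upper bound for S
  have hS1 : S ≤ 2 * Real.exp (-(r / 10 ^ 8)) := by
    refine hS.trans ?_
    have h1 : (2 : ℝ) ^ (2 * N) * ((n : ℝ) ^ (-(1 / 10 : ℝ))) ^ (((2 * N : ℕ) : ℝ) / 5) ≤
        Real.exp (-(r / 10 ^ 8)) := by
      have e1 : (2 : ℝ) ^ (2 * N) = Real.exp (Real.log 2 * (2 * N)) := by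
        rw [← Real.rpow_natCast, Real.rpow_def_of_pos (by norm_num : (0 : ℝ) < 2)]
        push_cast
        rfl
      have e2 : ((n : ℝ) ^ (-(1 / 10 : ℝ))) ^ (((2 * N : ℕ) : ℝ) / 5) =
          Real.exp (Real.log n * (-(1 / 10) * (2 * N / 5))) := by
        rw [← Real.rpow_mul hn.le, Real.rpow_def_of_pos hn]
        push_cast
        rfl
      rw [e1, e2, ← Real.exp_add]
      refine Real.exp_le_exp.2 ?_
      have hlog2 : Real.log 2 ≤ 0.7 := by
        have := Real.log_two_lt_d9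
        linarith
      have h3 : Real.log 2 * (2 * N) ≤ 0.7 * (2 * N) :=
        mul_le_mul_of_nonneg_right hlog2 (by linarith)
      have h4 : (N : ℝ) * 10 ^ 4 ≤ N * Real.log n := mul_le_mul_of_nonneg_left hl hNn
      have h5 : 9 / 10 * a * Real.log n ≤ N * Real.log n :=
        mul_le_mul_of_nonneg_right hNa3 hlp.le
      have h6 : Real.log n * (-(1 / 10) * (2 * N / 5)) = -(0.04 * (N * Real.log n)) := by ring
      rw [h6]
      have h7 : (9 / 10 : ℝ) * (r / 1638400) ≤ N * Real.log n := by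
        calc (9 / 10 : ℝ) * (r / 1638400) ≤ 9 / 10 * (a * Real.log n) :=
              mul_le_mul_of_nonneg_left hal2 (by norm_num)
          _ = 9 / 10 * a * Real.log n := by ring
          _ ≤ _ := h5
      linarith
    have h2 : Real.exp (-((r : ℝ) * (((2 * N : ℕ) : ℝ) * M / 2) / n)) ≤
        Real.exp (-(r / 10 ^ 8)) := by
      refine Real.exp_le_exp.2 (neg_le_neg ?_)
      rw [le_div_iff₀ hn]
      push_cast
      have h3 : 9 / 10 * (n / 102400) ≤ (N : ℝ) * M := by
        rw [← haM]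
        calc 9 / 10 * (a * M) = 9 / 10 * a * M := by ring
          _ ≤ N * M := mul_le_mul_of_nonneg_right hNa3 hMp.le
      have h4 : (r : ℝ) * (9 / 10 * (n / 102400)) ≤ r * (N * M) :=
        mul_le_mul_of_nonneg_left h3 hrp.le
      have h5 : 0 < (r : ℝ) * n := by positivity
      have h6 : (r : ℝ) / 10 ^ 8 * n = (r * n) / 10 ^ 8 := by ring
      have h7 : (r : ℝ) * (9 / 10 * (n / 102400)) = (r * n) * (9 / 1024000) := by ring
      have h8 : (r : ℝ) * (2 * N * M / 2) = r * (N * M) := by ring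
      rw [h6, h8]
      rw [h7] at h4
      linarith
    linarith
  by_contra hcon
  rw [not_or, not_le, not_le] at hcon
  obtain ⟨hR0, hR1⟩ := hcon
  set E : ℝ := Real.exp (-(ε0 * r)) with hE
  have hE0 : 0 < E := Real.exp_pos _
  -- the small term
  have hη2 : (1 - η) ^ r ≤ E / 2 := by
    have h1 : (1 - η) ^ r ≤ Real.exp (-(η * r)) := by
      have h2 : 1 - η ≤ Real.exp (-η) := by
        have := Real.add_one_le_exp (-η)
        linarith
      refine (pow_le_pow_left₀ (by linarith) h2 r).trans (le_of_eq ?_)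
      rw [← Real.exp_nat_mul]
      congr 1
      ring
    have h3 : Real.exp (-(η * r)) = E * E := by
      rw [hE, ← Real.exp_add]
      congr 1
      rw [hε]
      ring
    have h4 : E ≤ 1 / 2 := by
      have h5 : E ≤ Real.exp (-1) := Real.exp_le_exp.2 (by linarith)
      have h6 : Real.exp (-1) ≤ 1 / 2 := by
        rw [Real.exp_neg]
        have h7 := Real.add_one_le_exp (1 : ℝ)
        rw [one_div]
        exact inv_anti₀ (by norm_num) (by linarith)
      linarith
    rw [h3] at h1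
    have h5 := mul_le_mul_of_nonneg_left h4 hE0.le
    linarith
  have hT1 := hT (by linarith) (by linarith)
  -- lower bound for the left side
  have hθ1 : Real.exp (-(r / 10 ^ 9)) ≤ (1 - θ) ^ (4 * j * N) := by
    have h1 : Real.exp (-(2 * θ)) ≤ 1 - θ := by
      rw [hθ]
      have h2 : Real.exp (-(2 * (1 / 10 ^ 7) : ℝ)) = (Real.exp (2 * (1 / 10 ^ 7)))⁻¹ :=
        Real.exp_neg _
      rw [h2]
      have h3 := Real.add_one_le_exp (2 * (1 / 10 ^ 7) : ℝ)
      have h4 : (Real.exp (2 * (1 / 10 ^ 7) : ℝ))⁻¹ ≤ (2 * (1 / 10 ^ 7) + 1 : ℝ)⁻¹ :=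
        inv_anti₀ (by norm_num) h3
      refine h4.trans ?_
      norm_num
    have h5 : Real.exp (-(2 * θ)) ^ (4 * j * N) ≤ (1 - θ) ^ (4 * j * N) :=
      pow_le_pow_left₀ (Real.exp_pos _).le h1 _
    refine le_trans ?_ h5
    rw [← Real.exp_nat_mul]
    refine Real.exp_le_exp.2 ?_
    push_cast
    have h6 : 4 * (j : ℝ) * N ≤ r / 256 := by
      have h7 : 4 * (j : ℝ) * N ≤ 800 * (a * Real.log n) := by
        calc 4 * (j : ℝ) * N = 2 * (2 * j) * N := by ring
          _ ≤ 2 * (400 * Real.log n) * a := by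
              refine mul_le_mul ?_ hNa hNn (by positivity)
              linarith
          _ = 800 * (a * Real.log n) := by ring
      linarith
    have h9 : 4 * (j : ℝ) * N * -(2 * θ) = -(4 * (j : ℝ) * N) * (2 / 10 ^ 7) := by
      rw [hθ]; ring
    rw [h9]
    linarith
  have hη1' : Real.exp (-(r / 10 ^ 9)) ≤ (1 - η') ^ (2 * N) := by
    have h1 : Real.exp (-1) ≤ 1 - η' := by
      have h6 : Real.exp (-1) ≤ 1 / 2 := by
        rw [Real.exp_neg]
        have h7 := Real.add_one_le_exp (1 : ℝ)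
        rw [one_div]
        exact inv_anti₀ (by norm_num) (by linarith)
      linarith
    refine le_trans ?_ (pow_le_pow_left₀ (Real.exp_pos _).le h1 _)
    rw [← Real.exp_nat_mul]
    refine Real.exp_le_exp.2 ?_
    push_cast
    have h2 : (N : ℝ) * 10 ^ 4 ≤ r / 204800 := by
      calc (N : ℝ) * 10 ^ 4 ≤ a * Real.log n := mul_le_mul hNa hl (by norm_num) ha0.le
        _ ≤ _ := hal1
    linarith
  have hprod : (E / 2) * (E / 2) * Real.exp (-(r / 10 ^ 9)) * Real.exp (-(r / 10 ^ 9)) ≤ S := by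
    refine le_trans ?_ hT1
    have hA : E / 2 ≤ R0 - (1 - η) ^ r := by linarith
    have hB : E / 2 ≤ R1 - (1 - η) ^ r := by linarith
    have h1 : 0 < E / 2 := by linarith
    have h2 := Real.exp_pos (-((r : ℝ) / 10 ^ 9))
    refine mul_le_mul (mul_le_mul (mul_le_mul hA hB h1.le (by linarith)) hθ1 h2.le ?_)
      hη1' h2.le ?_
    · exact mul_nonneg (by linarith) (by linarith)
    · refine mul_nonneg (mul_nonneg (by linarith) (by linarith)) ?_
      exact h2.le.trans hθ1
  have hfin : E * E * Real.exp (-(r / 10 ^ 9)) * Real.exp (-(r / 10 ^ 9)) ≤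
      8 * Real.exp (-(r / 10 ^ 8)) := by
    have : (E / 2) * (E / 2) * Real.exp (-(r / 10 ^ 9)) * Real.exp (-(r / 10 ^ 9)) =
      E * E * Real.exp (-(r / 10 ^ 9)) * Real.exp (-(r / 10 ^ 9)) / 4 := by ring
    rw [this] at hprod
    linarith
  rw [hE, ← Real.exp_add, ← Real.exp_add, ← Real.exp_add] at hfin
  have h8 : (8 : ℝ) ≤ Real.exp 8 := by
    have := Real.add_one_le_exp (8 : ℝ)
    linarith
  have h9 : 8 * Real.exp (-((r : ℝ) / 10 ^ 8)) ≤ Real.exp (8 + -(r / 10 ^ 8)) := by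
    rw [Real.exp_add]
    exact mul_le_mul_of_nonneg_right h8 (Real.exp_pos _).le
  have h10 := Real.exp_le_exp.1 (hfin.trans h9)
  have h11 : ε0 * r ≤ 1 / 10 ^ 9 * r := mul_le_mul_of_nonneg_right hε9 hrp.le
  have h12 : -(ε0 * r) + -(ε0 * r) + -((r : ℝ) / 10 ^ 9) + -(r / 10 ^ 9) ≤ 8 + -(r / 10 ^ 8) := h10
  linarith

end Pool.Agent.Helper25.FS
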